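import Mathlib

/-!
# The bi-Lipschitz dissimilarity of balanced boolean functions is quadratic in the worst case

`D n` is the largest bi-Lipschitz dissimilarity of two balanced boolean functions on the cube
`{0,1}^n`. We prove `n ^ 2 / 64 ≤ D n ≤ n ^ 2` for every `n ≥ 1`; the lower bound is already
attained by a pair `f`, `1 - f`. So no exponent `α < 2` works.
-/

set_option autoImplicit false

namespace Pool.Agent.Results.MP_8f9b2f_co.QuadraticDissimilarity

/-- A boolean function on the cube is balanced if it takes the value `1` at exactly `2 ^ (n-1)`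
points, that is, at exactly half of the `2 ^ n` points. -/
def Balanced {n : ℕ} (f : (Fin n → Bool) → Bool) : Prop :=
  2 * (Finset.univ.filter (fun x => f x = true)).card = 2 ^ n

/-- The Lipschitz constant of a bijection of the cube for the Hamming distance: the infimum of
the `C ≥ 0` such that `‖φ x - φ y‖ ≤ C ‖x - y‖` for all `x`, `y`. -/
noncomputable def lipConst {n : ℕ} (φ : (Fin n → Bool) ≃ (Fin n → Bool)) : ℝ :=
  sInf {C : ℝ | 0 ≤ C ∧ ∀ x y, (hammingDist (φ x) (φ y) : ℝ) ≤ C * (hammingDist x y : ℝ)}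

/-- The dissimilarity of `f` and `g`: the infimum of `‖φ‖_Lip ‖φ⁻¹‖_Lip` over the mappings `φ`
from `f` to `g`, that is, over the bijections `φ` of the cube with `g (φ x) = f x`. -/
noncomputable def dissimilarity {n : ℕ} (f g : (Fin n → Bool) → Bool) : ℝ :=
  sInf {t : ℝ | ∃ φ : (Fin n → Bool) ≃ (Fin n → Bool), (∀ x, g (φ x) = f x) ∧
    t = lipConst φ * lipConst φ.symm}

/-- `D n`: the supremum of the dissimilarities of two balanced boolean functions on the cube of
dimension `n`. -/
noncomputable def maxDissimilarity (n : ℕ) : ℝ :=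
  sSup {t : ℝ | ∃ f g : (Fin n → Bool) → Bool, Balanced f ∧ Balanced g ∧
    t = dissimilarity f g}

/-- Flip the coordinates in `I`. -/
def flip {n : ℕ} (I : Finset (Fin n)) (x : Fin n → Bool) : Fin n → Bool :=
  fun i => if i ∈ I then !(x i) else x i

lemma flip_flip {n : ℕ} (I : Finset (Fin n)) (x : Fin n → Bool) : flip I (flip I x) = x := by
  funext i
  by_cases h : i ∈ I <;> simp [flip, h]

lemma flip_inj {n : ℕ} (I : Finset (Fin n)) {x y : Fin n → Bool} (h : flip I x = flip I y) :
    x = y := by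
  rw [← flip_flip I x, h, flip_flip]

/-- If the flips of `A` indexed by `ι` are pairwise disjoint (as witnessed by a labelling `c`),
then `|ι| |A| ≤ 2 ^ n`. -/
lemma mul_card_le {n : ℕ} {ι : Type} [Fintype ι] (A : Finset (Fin n → Bool))
    (I : ι → Finset (Fin n))
    (c : (Fin n → Bool) → ι) (hc : ∀ x ∈ A, ∀ k, c (flip (I k) x) = k) :
    Fintype.card ι * A.card ≤ 2 ^ n := by
  have h1 : (A ×ˢ (Finset.univ : Finset ι)).card ≤
      (Finset.univ : Finset (Fin n → Bool)).card := by
    apply Finset.card_le_card_of_injOn (fun p => flip (I p.2) p.1)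
    · intro p _
      exact Finset.mem_coe.2 (Finset.mem_univ _)
    · rintro ⟨x, k⟩ hx ⟨y, l⟩ hy hxy
      simp only [Finset.coe_product, Set.mem_prod, Finset.mem_coe, Finset.mem_univ,
        and_true] at hx hy
      simp only at hxy
      have hk := hc x hx k
      have hl := hc y hy l
      rw [hxy, hl] at hk
      subst hk
      have := flip_inj _ hxy
      rw [this]
  rw [Finset.card_product, Finset.card_univ, Finset.card_univ] at h1
  simp only [Fintype.card_pi, Fintype.card_bool, Finset.prod_const, Finset.card_univ,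
    Fintype.card_fin] at h1
  rw [mul_comm]
  exact h1

/-- Number of ones of `x` inside `I`. -/
def cnt {n : ℕ} (I : Finset (Fin n)) (x : Fin n → Bool) : ℕ := (I.filter (fun i => x i = true)).card

lemma cnt_flip_self {n : ℕ} (I : Finset (Fin n)) (J : Finset (Fin n)) (h : I ⊆ J)
    (x : Fin n → Bool) : cnt I x + cnt I (flip J x) = I.card := by
  unfold cnt
  have : (I.filter (fun i => flip J x i = true)) = I.filter (fun i => ¬ (x i = true)) := by
    apply Finset.filter_congr
    intro i hi
    simp [flip, h hi]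
  rw [this]
  exact Finset.card_filter_add_card_filter_not _

lemma cnt_flip_disj {n : ℕ} (I : Finset (Fin n)) (J : Finset (Fin n)) (h : ∀ i ∈ I, i ∉ J)
    (x : Fin n → Bool) : cnt I (flip J x) = cnt I x := by
  unfold cnt
  congr 1
  apply Finset.filter_congr
  intro i hi
  simp [flip, h i hi]

lemma cnt_le_dist {n : ℕ} (I : Finset (Fin n)) (x : Fin n → Bool) :
    cnt I x ≤ hammingDist (fun _ => false) x := by
  unfold cnt hammingDist
  apply Finset.card_le_card
  intro i hi
  simp only [Finset.mem_filter, Finset.mem_univ, true_and] at hi ⊢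
  simp [hi.2]

/-- two disjoint blocks of `2 m` coordinates -/
def L (n m : ℕ) : Finset (Fin n) := Finset.univ.filter (fun i => i.val < 2 * m)
def R (n m : ℕ) : Finset (Fin n) :=
  Finset.univ.filter (fun i => ¬ i.val < 2 * m ∧ i.val < 4 * m)

lemma card_L (n m : ℕ) (h : 4 * m ≤ n) : (L n m).card = 2 * m := by
  unfold L
  rw [Fin.card_filter_val_lt]
  omega

lemma card_R (n m : ℕ) (h : 4 * m ≤ n) : (R n m).card = 2 * m := by
  have h1 : (Finset.univ.filter (fun i : Fin n => i.val < 4 * m)).card = 4 * m := by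
    rw [Fin.card_filter_val_lt]
    omega
  have h2 := card_L n m h
  have h3 : (Finset.univ.filter (fun i : Fin n => i.val < 4 * m)) = L n m ∪ R n m := by
    ext i
    simp only [L, R, Finset.mem_filter, Finset.mem_univ, true_and, Finset.mem_union]
    omega
  have h4 : Disjoint (L n m) (R n m) := by
    rw [Finset.disjoint_left]
    intro i hi hi'
    simp only [L, R, Finset.mem_filter, Finset.mem_univ, true_and] at hi hi'
    exact hi'.1 hi
  rw [h3, Finset.card_union_of_disjoint h4, h2] at h1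
  omega

/-- the deep set -/
def A (n m : ℕ) : Finset (Fin n → Bool) :=
  Finset.univ.filter (fun x => cnt (L n m) x < m ∧ cnt (R n m) x < m)

lemma card_A (n m : ℕ) (h : 4 * m ≤ n) : 4 * (A n m).card ≤ 2 ^ n := by
  have := mul_card_le (ι := Bool × Bool) (A n m)
    (fun p => (if p.1 then L n m else ∅) ∪ (if p.2 then R n m else ∅))
    (fun x => (decide (m < cnt (L n m) x), decide (m < cnt (R n m) x))) ?_
  · simpa using this
  · intro x hx ⟨a, b⟩
    simp only [A, Finset.mem_filter, Finset.mem_univ, true_and] at hx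
    obtain ⟨hL, hR⟩ := hx
    have cL := card_L n m h
    have cR := card_R n m h
    have dLR : ∀ i ∈ L n m, i ∉ R n m := by
      intro i hi hi'
      simp only [L, R, Finset.mem_filter, Finset.mem_univ, true_and] at hi hi'
      exact hi'.1 hi
    have dRL : ∀ i ∈ R n m, i ∉ L n m := fun i hi hi' => dLR i hi' hi
    have e1 := cnt_flip_self (L n m) (L n m) (Finset.Subset.refl _) x
    have e2 := cnt_flip_self (R n m) (R n m) (Finset.Subset.refl _) x
    have e3 := cnt_flip_disj (L n m) (R n m) dLR x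
    have e4 := cnt_flip_disj (R n m) (L n m) dRL x
    have e5 := cnt_flip_self (L n m) (L n m ∪ R n m) Finset.subset_union_left x
    have e6 := cnt_flip_self (R n m) (L n m ∪ R n m) Finset.subset_union_right x
    have e7 := cnt_flip_disj (L n m) ∅ (fun i _ => Finset.notMem_empty i) x
    have e8 := cnt_flip_disj (R n m) ∅ (fun i _ => Finset.notMem_empty i) x
    cases a <;> cases b
    · simp only [Bool.false_eq_true, if_false, Finset.union_empty]
      rw [e7, e8]
      simp
      omega
    · simp only [Bool.false_eq_true, if_false, if_true, Finset.empty_union]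
      rw [e3]
      simp
      omega
    · simp only [Bool.false_eq_true, if_false, if_true, Finset.union_empty]
      rw [e4]
      simp
      omega
    · simp only [if_true]
      simp
      omega

/-- the dominating set -/
def D {n : ℕ} (a b c : Fin n) : Finset (Fin n → Bool) :=
  Finset.univ.filter (fun x => x a = x b ∧ x b = x c)

lemma flip_singleton_self {n : ℕ} (a : Fin n) (x : Fin n → Bool) :
    flip {a} x a = !(x a) := by simp [flip]

lemma flip_singleton_ne {n : ℕ} (a b : Fin n) (h : b ≠ a) (x : Fin n → Bool) :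
    flip {a} x b = x b := by simp [flip, h]

lemma flip_empty {n : ℕ} (x : Fin n → Bool) : flip ∅ x = x := by
  funext i; simp [flip]

lemma card_D {n : ℕ} (a b c : Fin n) (hab : a ≠ b) (hbc : b ≠ c) (hac : a ≠ c) :
    4 * (D a b c).card ≤ 2 ^ n := by
  have := mul_card_le (ι := Fin 4) (D a b c)
    (fun k => if k = 0 then ∅ else if k = 1 then {a} else if k = 2 then {b} else {c})
    (fun x => if x a = x b then (if x b = x c then 0 else 3) else (if x b = x c then 1 else 2)) ?_
  · simpa using this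
  · intro x hx k
    simp only [D, Finset.mem_filter, Finset.mem_univ, true_and] at hx
    obtain ⟨h1, h2⟩ := hx
    fin_cases k
    · simp [flip_empty, h1, h2]
    · simp only [Fin.mk_one, Fin.isValue, one_ne_zero, if_false, if_true]
      rw [flip_singleton_self, flip_singleton_ne a b hab.symm, flip_singleton_ne a c hac.symm,
        h1, h2]
      cases x c <;> simp
    · simp only [Fin.reduceFinMk, Fin.isValue, Fin.reduceEq, if_false, if_true]
      rw [flip_singleton_self, flip_singleton_ne b a hab, flip_singleton_ne b c hbc.symm,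
        h1, h2]
      cases x c <;> simp
    · simp only [Fin.reduceFinMk, Fin.isValue, Fin.reduceEq, if_false]
      rw [flip_singleton_self, flip_singleton_ne c a hac, flip_singleton_ne c b hbc,
        h1, h2]
      cases x c <;> simp

lemma dist_flip_singleton {n : ℕ} (a : Fin n) (x : Fin n → Bool) :
    hammingDist x (flip {a} x) = 1 := by
  unfold hammingDist
  rw [Finset.card_eq_one]
  refine ⟨a, ?_⟩
  ext i
  simp only [Finset.mem_filter, Finset.mem_univ, true_and, Finset.mem_singleton]
  constructor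
  · intro h
    by_contra hne
    exact h (flip_singleton_ne a i hne x).symm
  · rintro rfl
    rw [flip_singleton_self]
    cases x i <;> simp

/-- every vertex outside `D` has a neighbour in `D` -/
lemma exists_nbr {n : ℕ} (a b c : Fin n) (hab : a ≠ b) (hbc : b ≠ c) (hac : a ≠ c)
    (x : Fin n → Bool) (hx : x ∉ D a b c) :
    ∃ z ∈ D a b c, hammingDist x z = 1 := by
  simp only [D, Finset.mem_filter, Finset.mem_univ, true_and] at hx
  by_cases h1 : x a = x b
  · refine ⟨flip {c} x, ?_, dist_flip_singleton c x⟩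
    simp only [D, Finset.mem_filter, Finset.mem_univ, true_and]
    rw [flip_singleton_self, flip_singleton_ne c a hac, flip_singleton_ne c b hbc]
    have h2 : x b ≠ x c := fun h => hx ⟨h1, h⟩
    rw [h1]
    revert h2
    cases x b <;> cases x c <;> simp
  · by_cases h2 : x b = x c
    · refine ⟨flip {a} x, ?_, dist_flip_singleton a x⟩
      simp only [D, Finset.mem_filter, Finset.mem_univ, true_and]
      rw [flip_singleton_self, flip_singleton_ne a b hab.symm, flip_singleton_ne a c hac.symm]
      rw [h2] at h1 ⊢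
      revert h1
      cases x a <;> cases x c <;> simp
    · refine ⟨flip {b} x, ?_, dist_flip_singleton b x⟩
      simp only [D, Finset.mem_filter, Finset.mem_univ, true_and]
      rw [flip_singleton_self, flip_singleton_ne b a hab, flip_singleton_ne b c hbc.symm]
      revert h1 h2
      cases x a <;> cases x b <;> cases x c <;> simp

/-- For every `m ≥ 1` there is a balanced set `F` in the cube of dimension `n ≥ 4 m` that contains
all points of weight `< m`, and such that each point outside `F` has a neighbour in `F`. -/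
lemma exists_F (n m : ℕ) (hm : 1 ≤ m) (hmn : 4 * m ≤ n) : ∃ F : Finset (Fin n → Bool),
    2 * F.card = 2 ^ n ∧
    (∀ x, x ∉ F → m ≤ hammingDist (fun _ => false) x) ∧
    (∀ x, x ∉ F → ∃ z ∈ F, hammingDist x z = 1) := by
  let a : Fin n := ⟨0, by omega⟩
  let b : Fin n := ⟨1, by omega⟩
  let c : Fin n := ⟨2, by omega⟩
  have hab : a ≠ b := by simp [a, b]
  have hbc : b ≠ c := by simp [b, c]
  have hac : a ≠ c := by simp [a, c]
  have hA := card_A n m hmn
  have hD := card_D a b c hab hbc hac
  obtain ⟨M, hM⟩ : ∃ M, n = M + 1 := ⟨n - 1, by omega⟩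
  have hp : 2 ^ n = 2 * 2 ^ M := by rw [hM, pow_succ]; ring
  have hle : (A n m ∪ D a b c).card ≤ 2 ^ M := by
    have := Finset.card_union_le (A n m) (D a b c)
    omega
  have hcard : 2 ^ M ≤ (Finset.univ : Finset (Fin n → Bool)).card := by
    simp
    omega
  obtain ⟨F, hF1, hF2, hF3⟩ := Finset.exists_subsuperset_card_eq
    (Finset.subset_univ (A n m ∪ D a b c)) hle hcard
  refine ⟨F, ?_, ?_, ?_⟩
  · rw [hF3, hp]
  · intro x hx
    have hxA : x ∉ A n m := fun h => hx (hF1 (Finset.mem_union_left _ h))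
    simp only [A, Finset.mem_filter, Finset.mem_univ, true_and, not_and_or, not_lt] at hxA
    rcases hxA with h | h
    · exact h.trans (cnt_le_dist _ _)
    · exact h.trans (cnt_le_dist _ _)
  · intro x hx
    have hxD : x ∉ D a b c := fun h => hx (hF1 (Finset.mem_union_right _ h))
    obtain ⟨z, hz, hd⟩ := exists_nbr a b c hab hbc hac x hxD
    exact ⟨z, hF1 (Finset.mem_union_right _ hz), hd⟩

/-- The core: if `n ≥ 4 m` and `m ≥ 1`, there is a balanced `f` on the cube of dimension `n` such
that every mapping from `f` to `1 - f` has both Lipschitz constants at least `m`. -/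
lemma core (n m : ℕ) (hm : 1 ≤ m) (hmn : 4 * m ≤ n) : ∃ f : (Fin n → Bool) → Bool,
    Balanced f ∧
    ∀ φ : (Fin n → Bool) ≃ (Fin n → Bool), (∀ x, (!f (φ x)) = f x) →
      ∀ C₁ C₂ : ℝ,
        (∀ x y, (hammingDist (φ x) (φ y) : ℝ) ≤ C₁ * (hammingDist x y : ℝ)) →
        (∀ x y, (hammingDist (φ.symm x) (φ.symm y) : ℝ) ≤ C₂ * (hammingDist x y : ℝ)) →
        (m : ℝ) ≤ C₁ ∧ (m : ℝ) ≤ C₂ := by
  obtain ⟨F, hF, hdeep, hnbr⟩ := exists_F n m hm hmn
  have h0 : (fun _ => false : Fin n → Bool) ∈ F := by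
    by_contra h
    have := hdeep _ h
    rw [hammingDist_self] at this
    omega
  refine ⟨fun x => decide (x ∈ F), ?_, ?_⟩
  · simpa [Balanced] using hF
  · intro φ hφ C₁ C₂ hC₁ hC₂
    have key : ∀ x, (φ x ∉ F ↔ x ∈ F) := by
      intro x
      have := hφ x
      simp only at this
      by_cases h1 : φ x ∈ F <;> by_cases h2 : x ∈ F <;> simp_all
    constructor
    · -- `0 = φ x`, `x ∉ F`
      set x := φ.symm (fun _ => false) with hx
      have hφx : φ x = fun _ => false := by rw [hx, Equiv.apply_symm_apply]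
      have hxF : x ∉ F := by
        intro h
        exact ((key x).2 h) (by rw [hφx]; exact h0)
      obtain ⟨z, hz, hd⟩ := hnbr x hxF
      have hzF : φ z ∉ F := (key z).2 hz
      have h1 := hdeep _ hzF
      have h2 := hC₁ x z
      rw [hφx, hd] at h2
      have h3 : (m : ℝ) ≤ (hammingDist (fun _ => false) (φ z) : ℝ) := by exact_mod_cast h1
      simpa using h3.trans h2
    · set w := φ (fun _ => false) with hw
      have hwF : w ∉ F := (key _).2 h0
      obtain ⟨v, hv, hd⟩ := hnbr w hwF
      have hvF : φ.symm v ∉ F := by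
        intro h
        have := (key (φ.symm v)).2 h
        rw [Equiv.apply_symm_apply] at this
        exact this hv
      have h1 := hdeep _ hvF
      have h2 := hC₂ w v
      have hsw : φ.symm w = fun _ => false := by rw [hw, Equiv.symm_apply_apply]
      rw [hsw, hd] at h2
      have h3 : (m : ℝ) ≤ (hammingDist (fun _ => false) (φ.symm v) : ℝ) := by exact_mod_cast h1
      simpa using h3.trans h2

/-- the set of admissible Lipschitz bounds contains `n` -/
lemma mem_lip {n : ℕ} (φ : (Fin n → Bool) ≃ (Fin n → Bool)) :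
    (n : ℝ) ∈ {C : ℝ | 0 ≤ C ∧
      ∀ x y, (hammingDist (φ x) (φ y) : ℝ) ≤ C * (hammingDist x y : ℝ)} := by
  refine ⟨Nat.cast_nonneg n, fun x y => ?_⟩
  by_cases h : x = y
  · subst h
    simp
  · have h1 : 1 ≤ hammingDist x y := Nat.one_le_iff_ne_zero.2 (hammingDist_ne_zero.2 h)
    have h2 : hammingDist (φ x) (φ y) ≤ n := by
      simpa using hammingDist_le_card_fintype (x := φ x) (y := φ y)
    have h3 : (1 : ℝ) ≤ (hammingDist x y : ℝ) := by exact_mod_cast h1
    have h4 : ((hammingDist (φ x) (φ y) : ℕ) : ℝ) ≤ (n : ℝ) := by exact_mod_cast h2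
    have h5 : (0 : ℝ) ≤ (n : ℝ) := Nat.cast_nonneg n
    nlinarith

lemma lipConst_le {n : ℕ} (φ : (Fin n → Bool) ≃ (Fin n → Bool)) : lipConst φ ≤ n :=
  csInf_le ⟨0, fun _ h => h.1⟩ (mem_lip φ)

lemma lipConst_nonneg {n : ℕ} (φ : (Fin n → Bool) ≃ (Fin n → Bool)) : 0 ≤ lipConst φ :=
  le_csInf ⟨_, mem_lip φ⟩ (fun _ h => h.1)

lemma le_lipConst {n : ℕ} (φ : (Fin n → Bool) ≃ (Fin n → Bool)) (c : ℝ)
    (h : ∀ C : ℝ, (∀ x y, (hammingDist (φ x) (φ y) : ℝ) ≤ C * (hammingDist x y : ℝ)) → c ≤ C) :
    c ≤ lipConst φ :=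
  le_csInf ⟨_, mem_lip φ⟩ (fun C hC => h C hC.2)

lemma one_le_lipConst {n : ℕ} (hn : 1 ≤ n) (φ : (Fin n → Bool) ≃ (Fin n → Bool)) :
    1 ≤ lipConst φ := by
  apply le_lipConst
  intro C hC
  let a : Fin n := ⟨0, by omega⟩
  have h1 := hC (fun _ => false) (flip {a} (fun _ => false))
  rw [dist_flip_singleton] at h1
  have h2 : φ (fun _ => false) ≠ φ (flip {a} (fun _ => false)) := by
    intro h
    have h3 := φ.injective h
    have h4 := dist_flip_singleton a (fun _ => false)
    rw [← h3, hammingDist_self] at h4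
    exact absurd h4 (by norm_num)
  have h3 : 1 ≤ hammingDist (φ (fun _ => false)) (φ (flip {a} (fun _ => false))) :=
    Nat.one_le_iff_ne_zero.2 (hammingDist_ne_zero.2 h2)
  have h4 : (1 : ℝ) ≤
      (hammingDist (φ (fun _ => false)) (φ (flip {a} (fun _ => false))) : ℝ) := by
    exact_mod_cast h3
  have h5 := h4.trans h1
  simpa using h5

/-- Two balanced functions admit a mapping from the first to the second. -/
lemma exists_mapping {n : ℕ} (f g : (Fin n → Bool) → Bool) (hf : Balanced f) (hg : Balanced g) :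
    ∃ φ : (Fin n → Bool) ≃ (Fin n → Bool), ∀ x, g (φ x) = f x := by
  have hcard : Fintype.card {x : Fin n → Bool // f x = true} =
      Fintype.card {x : Fin n → Bool // g x = true} := by
    rw [Fintype.card_subtype, Fintype.card_subtype]
    unfold Balanced at hf hg
    omega
  obtain ⟨e⟩ := Fintype.card_eq.1 hcard
  refine ⟨e.extendSubtype, fun x => ?_⟩
  by_cases h : f x = true
  · rw [h]
    exact e.extendSubtype_mem x h
  · have h1 := e.extendSubtype_not_mem x h
    have h2 : f x = false := by simpa using h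
    rw [h2]
    simpa using h1

lemma not_balanced {n : ℕ} (f : (Fin n → Bool) → Bool) (hf : Balanced f) :
    Balanced (fun x => !f x) := by
  unfold Balanced at hf ⊢
  have h1 := Finset.card_filter_add_card_filter_not
    (s := (Finset.univ : Finset (Fin n → Bool))) (fun x => f x = true)
  have h3 : (Finset.univ.filter (fun x : Fin n → Bool => (!f x) = true))
    = Finset.univ.filter (fun x => ¬ f x = true) := by
    ext; simp
  rw [h3]
  have h4 : (Finset.univ : Finset (Fin n → Bool)).card = 2 ^ n := by simp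
  omega

lemma exists_balanced (n : ℕ) (hn : 1 ≤ n) : ∃ f : (Fin n → Bool) → Bool, Balanced f := by
  obtain ⟨M, rfl⟩ : ∃ M, n = M + 1 := ⟨n - 1, by omega⟩
  have hcard : 2 ^ M ≤ (Finset.univ : Finset (Fin (M + 1) → Bool)).card := by
    simp [pow_succ]
  obtain ⟨F, -, hF⟩ := Finset.exists_subset_card_eq hcard
  refine ⟨fun x => decide (x ∈ F), ?_⟩
  unfold Balanced
  simp [hF, pow_succ]
  ring

lemma bddBelow_diss {n : ℕ} (f g : (Fin n → Bool) → Bool) :
    BddBelow {t : ℝ | ∃ φ : (Fin n → Bool) ≃ (Fin n → Bool), (∀ x, g (φ x) = f x) ∧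
      t = lipConst φ * lipConst φ.symm} := by
  refine ⟨0, ?_⟩
  rintro t ⟨φ, -, rfl⟩
  exact mul_nonneg (lipConst_nonneg _) (lipConst_nonneg _)

lemma dissimilarity_le {n : ℕ} (f g : (Fin n → Bool) → Bool) (hf : Balanced f)
    (hg : Balanced g) : dissimilarity f g ≤ (n : ℝ) ^ 2 := by
  obtain ⟨φ, hφ⟩ := exists_mapping f g hf hg
  have h1 : dissimilarity f g ≤ lipConst φ * lipConst φ.symm :=
    csInf_le (bddBelow_diss f g) ⟨φ, hφ, rfl⟩
  have h2 : lipConst φ * lipConst φ.symm ≤ (n : ℝ) * n :=
    mul_le_mul (lipConst_le φ) (lipConst_le φ.symm) (lipConst_nonneg _) (Nat.cast_nonneg n)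
  rw [pow_two]
  exact h1.trans h2

lemma le_dissimilarity {n : ℕ} (f g : (Fin n → Bool) → Bool) (hf : Balanced f)
    (hg : Balanced g) (c : ℝ)
    (h : ∀ φ : (Fin n → Bool) ≃ (Fin n → Bool), (∀ x, g (φ x) = f x) →
      c ≤ lipConst φ * lipConst φ.symm) : c ≤ dissimilarity f g := by
  obtain ⟨φ, hφ⟩ := exists_mapping f g hf hg
  refine le_csInf ⟨_, φ, hφ, rfl⟩ ?_
  rintro t ⟨ψ, hψ, rfl⟩
  exact h ψ hψ

lemma bddAbove_max (n : ℕ) :
    BddAbove {t : ℝ | ∃ f g : (Fin n → Bool) → Bool, Balanced f ∧ Balanced g ∧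
      t = dissimilarity f g} := by
  refine ⟨(n : ℝ) ^ 2, ?_⟩
  rintro t ⟨f, g, hf, hg, rfl⟩
  exact dissimilarity_le f g hf hg

/-- The pair `f`, `1 - f`. -/
lemma exists_pair (n : ℕ) (hn : 1 ≤ n) : ∃ f : (Fin n → Bool) → Bool, Balanced f ∧
    (n : ℝ) ^ 2 / 64 ≤ dissimilarity f (fun x => !f x) := by
  by_cases h4 : n < 4
  · obtain ⟨f, hf⟩ := exists_balanced n hn
    refine ⟨f, hf, le_dissimilarity _ _ hf (not_balanced f hf) _ ?_⟩
    intro φ _
    have h1 := one_le_lipConst hn φ
    have h2 := one_le_lipConst hn φ.symm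
    have h3 : (n : ℝ) ≤ 4 := by exact_mod_cast h4.le
    have h5 : (0 : ℝ) ≤ n := Nat.cast_nonneg n
    nlinarith
  · obtain ⟨f, hf, hcore⟩ := core n (n / 4) (by omega) (by omega)
    refine ⟨f, hf, le_dissimilarity _ _ hf (not_balanced f hf) _ ?_⟩
    intro φ hφ
    have hψ : ∀ x, (!f (φ.symm x)) = f x := by
      intro x
      have := hφ (φ.symm x)
      rw [Equiv.apply_symm_apply] at this
      rw [← this]
      simp
    have h1 : ((n / 4 : ℕ) : ℝ) ≤ lipConst φ := by
      apply le_lipConst
      intro C hC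
      exact (hcore φ hφ C n hC (mem_lip φ.symm).2).1
    have h2 : ((n / 4 : ℕ) : ℝ) ≤ lipConst φ.symm := by
      apply le_lipConst
      intro C hC
      exact (hcore φ hφ n C (mem_lip φ).2 hC).2
    have h3 : n ≤ 8 * (n / 4) := by omega
    have h5 : (n : ℝ) ≤ 8 * ((n / 4 : ℕ) : ℝ) := by exact_mod_cast h3
    have h6 : (0 : ℝ) ≤ n := Nat.cast_nonneg n
    have h7 : (n : ℝ) / 8 ≤ lipConst φ := by linarith
    have h8 : (n : ℝ) / 8 ≤ lipConst φ.symm := by linarith
    have h9 : (n : ℝ) / 8 * ((n : ℝ) / 8) ≤ lipConst φ * lipConst φ.symm :=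
      mul_le_mul h7 h8 (by positivity) (lipConst_nonneg _)
    calc (n : ℝ) ^ 2 / 64 = (n : ℝ) / 8 * ((n : ℝ) / 8) := by ring
      _ ≤ _ := h9

/-- For every `n ≥ 1` some balanced `f` has dissimilarity at least `n ^ 2 / 64` from `1 - f`; in
particular `n ^ 2 / 64 ≤ D n ≤ n ^ 2`, and `D n` is not `O(n ^ α)` for any `α < 2`. -/
theorem result :
    (∀ n : ℕ, 1 ≤ n →
      (∃ f : (Fin n → Bool) → Bool, Balanced f ∧
        (n : ℝ) ^ 2 / 64 ≤ dissimilarity f (fun x => !f x)) ∧
      (n : ℝ) ^ 2 / 64 ≤ maxDissimilarity n ∧ maxDissimilarity n ≤ (n : ℝ) ^ 2) ∧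
    ∀ α : ℝ, α < 2 →
      ¬ (maxDissimilarity =O[Filter.atTop] (fun n : ℕ => (n : ℝ) ^ α)) := by
  have hlow : ∀ n : ℕ, 1 ≤ n → (n : ℝ) ^ 2 / 64 ≤ maxDissimilarity n := by
    intro n hn
    obtain ⟨f, hf, hd⟩ := exists_pair n hn
    exact hd.trans (le_csSup (bddAbove_max n) ⟨f, _, hf, not_balanced f hf, rfl⟩)
  refine ⟨fun n hn => ⟨exists_pair n hn, hlow n hn, ?_⟩, ?_⟩
  · obtain ⟨f, hf⟩ := exists_balanced n hn
    refine csSup_le ⟨_, f, f, hf, hf, rfl⟩ ?_
    rintro t ⟨f, g, hf, hg, rfl⟩
    exact dissimilarity_le f g hf hg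
  · intro α hα hO
    obtain ⟨K, hK⟩ := hO.bound
    have hlim : Filter.Tendsto (fun n : ℕ => (n : ℝ) ^ (2 - α)) Filter.atTop Filter.atTop :=
      (tendsto_rpow_atTop (by linarith)).comp tendsto_natCast_atTop_atTop
    obtain ⟨n, h1, h2, h3⟩ := ((Filter.eventually_ge_atTop 1).and
      (hK.and (hlim.eventually_gt_atTop (64 * K)))).exists
    have hn : (0 : ℝ) < n := by exact_mod_cast h1
    have h4 := hlow n h1
    have h5 : (0 : ℝ) < (n : ℝ) ^ α := Real.rpow_pos_of_pos hn α
    rw [Real.norm_eq_abs, Real.norm_eq_abs, abs_of_pos h5] at h2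
    have h6 : (n : ℝ) ^ 2 / 64 ≤ K * (n : ℝ) ^ α := h4.trans ((le_abs_self _).trans h2)
    have h7 : (n : ℝ) ^ α * (n : ℝ) ^ (2 - α) = (n : ℝ) ^ 2 := by
      rw [← Real.rpow_add hn]
      have : α + (2 - α) = ((2 : ℕ) : ℝ) := by push_cast; ring
      rw [this, Real.rpow_natCast]
    have h8 : (n : ℝ) ^ α * (64 * K) < (n : ℝ) ^ α * (n : ℝ) ^ (2 - α) :=
      mul_lt_mul_of_pos_left h3 h5
    rw [h7] at h8
    linarith

end Pool.Agent.Results.MP_8f9b2f_co.QuadraticDissimilarity
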